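import Pool.Agent.Helper66.TU.Defs

/-!
# The group of points modulo the points near zero is cyclic over `ℤ[i]`
-/

namespace GWA

section CYCB

variable {K : Type} [NormedField K] [Algebra GaussianInt K] [NeZero (2 : K)] [DecidableEq K]
  {π : GaussianInt}

/-- `LHU.cycU` from `LHU.card_QMU`, `LHU.card_torsU`, `LHU.pi_tors` -/
theorem LHU.cycU_of (h : LHU K π) {d : Kˣ} (hfin : Finite (h.QM d))
    (hct : ∀ l : GaussianInt, Prime l → ¬ π ∣ l →
      Nat.card {m : h.QM d // l • m = 0} < l.norm.natAbs ^ 2)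
    (hpt : ∀ P : E (d : K), π • P ∈ nb π (d : K) 0 → P ∈ nb π (d : K) 0) :
    ∃ (g : E (d : K)) (n : GaussianInt), n ≠ 0 ∧ ¬ π ∣ n ∧
      (∀ P : E (d : K), ∃ α : GaussianInt, P - α • g ∈ nb π (d : K) 0) ∧
      (∀ α : GaussianInt, α • g ∈ nb π (d : K) 0 ↔ n ∣ α) ∧
      n.norm.natAbs = Nat.card (h.QM d) := by
  have hpi : ∀ x : h.QM d, π • x = 0 → x = 0 := by
    intro x hx
    have h1 : (Submodule.Quotient.mk (Quotient.out x) : h.QM d) = x := Quotient.out_eq x
    rw [← h1, ← Submodule.Quotient.mk_smul, Submodule.Quotient.mk_eq_zero, h.mem_nbS] at hx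
    rw [← h1, Submodule.Quotient.mk_eq_zero, h.mem_nbS]
    exact hpt _ hx
  obtain ⟨g, hg⟩ := cyclic_of_tors (M := h.QM d) (fun l hl x y hx hy hy0 => by
    by_cases hπ : π ∣ l
    · exfalso
      obtain ⟨v, hv⟩ := h.prime.associated_of_dvd hl hπ
      apply hy0
      apply hpi
      have h2 : π = (((v⁻¹ : GaussianIntˣ) : GaussianInt)) * l := by
        rw [← hv, mul_comm, mul_assoc, Units.mul_inv, mul_one]
      have h3 : π • y = ((((v⁻¹ : GaussianIntˣ) : GaussianInt)) * l) • y :=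
        congrArg (fun z : GaussianInt => z • y) h2
      rw [h3, mul_smul, hy, smul_zero]
    · exact tors_of_card hl (hct l hl hπ) x y hx hy hy0)
  have h1 : (Submodule.Quotient.mk (Quotient.out g) : h.QM d) = g := Quotient.out_eq g
  obtain ⟨a, ha⟩ := (IsPrincipalIdealRing.principal
    (LinearMap.ker (LinearMap.toSpanSingleton GaussianInt (h.QM d) g))).principal
  have hmem : ∀ c : GaussianInt, c • g = 0 ↔ a ∣ c := by
    intro c
    rw [← Ideal.mem_span_singleton]
    change _ ↔ c ∈ Submodule.span GaussianInt {a}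
    rw [← ha, LinearMap.mem_ker, LinearMap.toSpanSingleton_apply]
  have hcard0 : ((Nat.card (h.QM d) : ℕ) : GaussianInt) • g = 0 := by
    have h1 : (Nat.card (h.QM d)) • g = 0 := card_nsmul_eq_zero'
    rw [← h1]
    exact Nat.cast_smul_eq_nsmul GaussianInt _ _
  have hc0 : ((Nat.card (h.QM d) : ℕ) : GaussianInt) ≠ 0 := by
    have : Nonempty (h.QM d) := ⟨0⟩
    exact Nat.cast_ne_zero.2 Nat.card_pos.ne'
  have ha0 : a ≠ 0 := by
    rintro rfl
    exact hc0 (zero_dvd_iff.1 ((hmem _).1 hcard0))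
  refine ⟨Quotient.out g, a, ha0, ?_, fun P => ?_, fun α => ?_, ?_⟩
  · rintro ⟨a', rfl⟩
    have h2 : a' • g = 0 := by
      apply hpi
      rw [smul_smul]
      exact (hmem _).2 dvd_rfl
    obtain ⟨b, hb⟩ := (hmem _).1 h2
    have ha'0 : a' ≠ 0 := fun h0 => ha0 (by rw [h0, mul_zero])
    apply h.prime.not_isUnit
    apply IsUnit.of_mul_eq_one b
    apply mul_left_cancel₀ ha'0
    rw [mul_one]
    conv_rhs => rw [hb]
    ring
  · obtain ⟨α, hα⟩ := hg (Submodule.Quotient.mk P)
    refine ⟨α, ?_⟩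
    rw [← h1, ← Submodule.Quotient.mk_smul, Submodule.Quotient.eq] at hα
    exact hα
  · rw [← hmem, ← h.mem_nbS, ← Submodule.Quotient.mk_eq_zero, Submodule.Quotient.mk_smul, h1]
  · rw [← card_quot]
    let Φ : (GaussianInt ⧸ Ideal.span {a}) → h.QM d := fun c => (Quotient.out c : GaussianInt) • g
    apply Nat.card_congr (Equiv.ofBijective Φ ⟨?_, ?_⟩)
    · intro b c hbc
      have h3 : ((Quotient.out b : GaussianInt) - Quotient.out c) • g = 0 := by
        rw [sub_smul]; exact sub_eq_zero.2 hbc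
      rw [hmem] at h3
      have hb : Ideal.Quotient.mk (Ideal.span {a}) (Quotient.out b) = b := Quotient.out_eq b
      have hc : Ideal.Quotient.mk (Ideal.span {a}) (Quotient.out c) = c := Quotient.out_eq c
      rw [← hb, ← hc, Ideal.Quotient.eq, Ideal.mem_span_singleton]
      exact h3
    · intro m
      obtain ⟨α, hα⟩ := hg m
      refine ⟨Ideal.Quotient.mk (Ideal.span {a}) α, ?_⟩
      have hb : Ideal.Quotient.mk (Ideal.span {a})
          (Quotient.out (Ideal.Quotient.mk (Ideal.span {a}) α)) =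
          Ideal.Quotient.mk (Ideal.span {a}) α := Quotient.out_eq _
      rw [Ideal.Quotient.eq, Ideal.mem_span_singleton, ← hmem, sub_smul, sub_eq_zero] at hb
      rw [hα]
      exact hb

end CYCB

end GWA
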