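import Pool.Agent.Helper66.TU.Defs

/-!
# A generator of the group of points modulo the points near zero which is a torsion point
-/

namespace GWA

section TOR

variable {K : Type} [NormedField K] [Algebra GaussianInt K] [NeZero (2 : K)] [DecidableEq K]
  {π : GaussianInt}

theorem LHU.nb_pow_smul (h : LHU K π) (d : Kˣ) (m n : ℕ) {P : E (d : K)}
    (hP : P ∈ nb π (d : K) n) : π ^ m • P ∈ nb π (d : K) (n + m) := by
  induction m with
  | zero => rw [pow_zero, one_smul, add_zero]; exact hP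
  | succ m ih =>
    rw [pow_succ', mul_smul]
    exact h.nb_pi_smul d (n + m) ih

theorem LHU.nb_sub (h : LHU K π) {d : K} (hd : d ≠ 0) (n : ℕ) {P Q : E d}
    (hP : P ∈ nb π d n) (hQ : Q ∈ nb π d n) : P - Q ∈ nb π d n := by
  rw [sub_eq_add_neg]
  exact h.nb_add hd n hP (neg_mem_nbh hQ)

/-- `LHU.genU` from `LHU.cycU` and `LHU.complete_nb` -/
theorem LHU.genU_of (h : LHU K π) {d : Kˣ}
    (hcyc : ∃ (g : E (d : K)) (n : GaussianInt), n ≠ 0 ∧ ¬ π ∣ n ∧
      (∀ P : E (d : K), ∃ α : GaussianInt, P - α • g ∈ nb π (d : K) 0) ∧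
      (∀ α : GaussianInt, α • g ∈ nb π (d : K) 0 ↔ n ∣ α) ∧
      n.norm.natAbs = Nat.card (h.QM d))
    (hcom : ∀ P : ℕ → E (d : K), (∀ n, P n ∈ nb π (d : K) 0) →
      (∀ n, P (n + 1) - P n ∈ nb π (d : K) n) →
      ∃ R ∈ nb π (d : K) 0, ∀ n, R - P n ∈ nb π (d : K) n) :
    ∃ (g : E (d : K)) (n : GaussianInt), Gen π d g n ∧ n.norm.natAbs = Nat.card (h.QM d) := by
  obtain ⟨g, n, hn0, hn, hgen, hmem, hcard⟩ := hcyc
  have hng : n • g ∈ nb π (d : K) 0 := (hmem n).2 dvd_rfl
  have hcop : ∀ N : ℕ, IsCoprime n (π ^ N) := fun N =>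
    IsCoprime.pow_right ((h.prime.irreducible.coprime_iff_not_dvd).2 hn).symm
  choose u v huv using hcop
  set e : ℕ → GaussianInt := fun N => v N * π ^ N with he
  have he1 : ∀ N, n ∣ e N - 1 := by
    intro N
    refine ⟨-u N, ?_⟩
    simp only [he]
    linear_combination huv N
  have heπ : ∀ N, π ^ N ∣ e N := fun N => Dvd.intro_left _ rfl
  have hdiff : ∀ N, π ^ (N + 1) * n ∣ e (N + 2) - e (N + 1) := by
    intro N
    have hc : IsCoprime (π ^ (N + 1)) n :=
      (IsCoprime.pow_right ((h.prime.irreducible.coprime_iff_not_dvd).2 hn).symm).symm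
    apply hc.mul_dvd
    · exact dvd_sub ((pow_dvd_pow π (by omega)).trans (heπ (N + 2))) (heπ (N + 1))
    · have h1 := dvd_sub (he1 (N + 2)) (he1 (N + 1))
      rwa [sub_sub_sub_cancel_right] at h1
  have key : ∀ (N : ℕ) (c : GaussianInt), π ^ N * n ∣ c → c • g ∈ nb π (d : K) N := by
    rintro N c ⟨b, rfl⟩
    have h1 : (π ^ N * n * b) • g = π ^ N • (b • (n • g)) := by
      rw [smul_smul, smul_smul]
      congr 1
      ring
    rw [h1]
    have h2 := h.nb_pow_smul d N 0 (h.nb_smul d 0 b hng)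
    rwa [zero_add] at h2
  have hP0 : ∀ N, (fun N => e (N + 1) • g - g) N ∈ nb π (d : K) 0 := by
    intro N
    have h1 : e (N + 1) • g - g = (e (N + 1) - 1) • g := by rw [sub_smul, one_smul]
    change e (N + 1) • g - g ∈ nb π (d : K) 0
    rw [h1]
    exact key 0 _ (by rw [pow_zero, one_mul]; exact he1 _)
  have hPd : ∀ N, (fun N => e (N + 1) • g - g) (N + 1) - (fun N => e (N + 1) • g - g) N ∈
      nb π (d : K) N := by
    intro N
    have h1 : (e (N + 1 + 1) • g - g) - (e (N + 1) • g - g) = (e (N + 2) - e (N + 1)) • g := by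
      rw [sub_smul]
      abel
    change (e (N + 1 + 1) • g - g) - (e (N + 1) • g - g) ∈ nb π (d : K) N
    rw [h1]
    exact nbh_anti h.one_lt_inv.le _ (Nat.le_succ N) (key (N + 1) _ (hdiff N))
  obtain ⟨R, hR0, hR⟩ := hcom (fun N => e (N + 1) • g - g) hP0 hPd
  have htors : n • (g + R) = 0 := by
    by_contra hne
    obtain ⟨m, hm⟩ := h.nb_exit d.ne_zero hne
    apply hm
    have h1 : n • (g + R) = (n * e (m + 1)) • g + n • (R - (e (m + 1) • g - g)) := by
      rw [mul_smul, ← smul_add]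
      congr 1
      abel
    rw [h1]
    apply h.nb_add d.ne_zero m
    · apply key
      obtain ⟨b, hb⟩ := heπ (m + 1)
      refine ⟨π * b, ?_⟩
      rw [hb]
      ring
    · exact h.nb_smul d m n (hR m)
  refine ⟨g + R, n, ⟨hn0, hn, htors, ?_, ?_⟩, hcard⟩
  · intro P
    obtain ⟨α, hα⟩ := hgen P
    refine ⟨α, ?_⟩
    have h1 : P - α • (g + R) = (P - α • g) - α • R := by
      rw [smul_add]
      abel
    rw [h1]
    exact h.nb_sub d.ne_zero 0 hα (h.nb_smul d 0 α hR0)
  · intro α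
    rw [← hmem α]
    constructor
    · intro h1
      have h2 := h.nb_sub d.ne_zero 0 h1 (h.nb_smul d 0 α hR0)
      rwa [smul_add, add_sub_cancel_right] at h2
    · intro h1
      rw [smul_add]
      exact h.nb_add d.ne_zero 0 h1 (h.nb_smul d 0 α hR0)

end TOR

end GWA
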